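import Pool.Agent.H799K.Points

/-!
An explicit lower bound of order `d ^ (3/2)` for the chromatic number of tangency graphs of unit
ball packings, in the form of separated sets and their unit distance graphs.
-/

set_option autoImplicit false

open Finset

namespace Pool.Agent.Results.MP_ac2800_co.ThreeHalves

open Pool.Agent.H799K

/-- Distinct points of `X` are at distance at least one. -/
def IsSeparated {d : ℕ} (X : Set (EuclideanSpace ℝ (Fin d))) : Prop :=
  ∀ x ∈ X, ∀ y ∈ X, x ≠ y → 1 ≤ dist x y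

/-- The graph on `X` joining two points at distance exactly one. -/
def unitDistanceGraph {d : ℕ} (X : Set (EuclideanSpace ℝ (Fin d))) : SimpleGraph X where
  Adj x y := dist (x : EuclideanSpace ℝ (Fin d)) (y : EuclideanSpace ℝ (Fin d)) = 1
  symm := ⟨by intro x y h; rw [dist_comm]; exact h⟩
  loopless := ⟨by intro x h; rw [dist_self] at h; norm_num at h⟩

/-- The supremum of the chromatic numbers of the unit distance graphs of all separated sets,
finite or infinite. -/
noncomputable def sepChi (d : ℕ) : ℕ∞ :=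
  ⨆ X : {X : Set (EuclideanSpace ℝ (Fin d)) // IsSeparated X}, (unitDistanceGraph X.1).chromaticNumber

theorem ceil_le_sepChi {d : ℕ} (P : Finset (EuclideanSpace ℝ (Fin d)))
    (hP : IsSeparated (P : Set (EuclideanSpace ℝ (Fin d)))) (a : ℝ) (ha : 0 < a)
    (hT : ∀ T ⊆ P, (∀ x ∈ T, ∀ y ∈ T, dist x y ≠ 1) → (T.card : ℝ) ≤ a) (r : ℝ)
    (hr : r * a ≤ P.card) : ((⌈r⌉₊ : ℕ) : ℕ∞) ≤ sepChi d := by
  classical
  refine le_trans ?_ (le_iSup (fun X : {X : Set (EuclideanSpace ℝ (Fin d)) // IsSeparated X} =>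
    (unitDistanceGraph X.1).chromaticNumber) ⟨P, hP⟩)
  rw [SimpleGraph.le_chromaticNumber_iff_colorable]
  rintro k ⟨C⟩
  rw [Nat.ceil_le]
  let A : Fin k → Finset {x // x ∈ P} := fun c => Finset.univ.filter fun x => C ⟨x.1, x.2⟩ = c
  have hcard : P.card = ∑ c : Fin k, (A c).card := by
    have h1 : (Finset.univ : Finset {x // x ∈ P}).card = ∑ c : Fin k, (A c).card :=
      Finset.card_eq_sum_card_fiberwise (fun _ _ => Finset.mem_coe.mpr (Finset.mem_univ _))
    rw [← h1, Finset.card_univ, Fintype.card_coe]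
  have hA : ∀ c, ((A c).card : ℝ) ≤ a := by
    intro c
    have h1 := hT ((A c).map (Function.Embedding.subtype _)) (by
      intro x hx
      rw [Finset.mem_map] at hx
      obtain ⟨y, _, rfl⟩ := hx
      exact y.2) (by
      intro x hx y hy hxy
      rw [Finset.mem_map] at hx hy
      obtain ⟨x', hx', rfl⟩ := hx
      obtain ⟨y', hy', rfl⟩ := hy
      simp only [A, Finset.mem_filter, Finset.mem_univ, true_and] at hx' hy'
      have hadj : (unitDistanceGraph (P : Set (EuclideanSpace ℝ (Fin d)))).Adj ⟨x'.1, x'.2⟩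
        ⟨y'.1, y'.2⟩ := hxy
      exact C.valid hadj (hx'.trans hy'.symm))
    rwa [Finset.card_map] at h1
  have h2 : (P.card : ℝ) ≤ k * a := by
    rw [hcard]
    push_cast
    calc ∑ c : Fin k, ((A c).card : ℝ) ≤ ∑ _c : Fin k, a := Finset.sum_le_sum fun c _ => hA c
      _ = k * a := by rw [Finset.sum_const, Finset.card_univ, Fintype.card_fin, nsmul_eq_mul]
  exact le_of_mul_le_mul_right (hr.trans h2) ha

/-- Padding with zeros. -/
noncomputable def pad {d r : ℕ} (x : EuclideanSpace ℝ (Fin d)) : EuclideanSpace ℝ (Fin (d + r)) :=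
  WithLp.toLp 2 (Fin.append (fun i => x i) (fun _ => 0))

lemma dist_pad {d r : ℕ} (x y : EuclideanSpace ℝ (Fin d)) :
    dist (pad (r := r) x) (pad y) = dist x y := by
  rw [EuclideanSpace.dist_eq, EuclideanSpace.dist_eq]
  congr 1
  rw [Fin.sum_univ_add]
  have h1 : ∑ i : Fin r, dist ((pad (r := r) x) (Fin.natAdd d i)) ((pad y) (Fin.natAdd d i)) ^ 2 = 0 := by
    refine Finset.sum_eq_zero fun i _ => ?_
    simp [pad]
  rw [h1, add_zero]
  refine Finset.sum_congr rfl fun i _ => ?_
  simp only [pad, Fin.append_left]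

lemma pad_inj {d r : ℕ} : Function.Injective (pad (d := d) (r := r)) := by
  intro x y h
  have h1 : dist (pad (r := r) x) (pad y) = 0 := by rw [h, dist_self]
  rw [dist_pad] at h1
  exact dist_eq_zero.mp h1

/-- For all `j` and all `n ≥ 6 * 4 ^ j`, `sepChi n` is at least `4 * 16 ^ j / (2 ^ j + 1)`,
rounded up. -/
theorem result : ∀ j n : ℕ, 6 * 4 ^ j ≤ n →
    ((⌈(4 * 16 ^ j : ℝ) / (2 ^ j + 1)⌉₊ : ℕ) : ℕ∞) ≤ sepChi n := by
  classical
  intro j n hn
  obtain ⟨S, hScard, hSsep, hST⟩ := exists_set j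
  have hd : 3 * 2 ^ (2 * j + 1) ≤ n := by
    have h : 3 * 2 ^ (2 * j + 1) = 6 * 4 ^ j := by
      rw [pow_succ, pow_mul]; norm_num; ring
    rw [h]; exact hn
  obtain ⟨r, rfl⟩ := Nat.exists_eq_add_of_le hd
  have hcardP : (S.map ⟨pad (r := r), pad_inj⟩).card = S.card := Finset.card_map _
  have hp : (0 : ℝ) < 2 ^ j := by positivity
  refine ceil_le_sepChi (S.map ⟨pad (r := r), pad_inj⟩) ?_ (2 ^ (j + 1) + 2) (by positivity) ?_ _ ?_
  · intro a ha b hb hab
    rw [Finset.mem_coe, Finset.mem_map] at ha hb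
    obtain ⟨x, hx, rfl⟩ := ha
    obtain ⟨y, hy, rfl⟩ := hb
    simp only [Function.Embedding.coeFn_mk]
    rw [dist_pad]
    exact hSsep x hx y hy (fun h => hab (by rw [h]))
  · intro T hTP hTd
    let T' : Finset (EuclideanSpace ℝ (Fin (3 * 2 ^ (2 * j + 1)))) := S.filter fun x => pad (r := r) x ∈ T
    have hT' : T = T'.map ⟨pad (r := r), pad_inj⟩ := by
      ext a
      simp only [T', Finset.mem_map, Finset.mem_filter, Function.Embedding.coeFn_mk]
      constructor
      · intro ha
        have := hTP ha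
        rw [Finset.mem_map] at this
        obtain ⟨x, hx, rfl⟩ := this
        exact ⟨x, ⟨hx, ha⟩, rfl⟩
      · rintro ⟨x, ⟨_, hx⟩, rfl⟩
        exact hx
    have hc : T.card = T'.card := by
      rw [hT', Finset.card_map]
    rw [hc]
    refine hST T' (Finset.filter_subset _ _) ?_
    intro x hx y hy hxy
    simp only [T', Finset.mem_filter] at hx hy
    have h1 := hSsep x hx.1 y hy.1 hxy
    have h2 := hTd _ hx.2 _ hy.2
    rw [dist_pad] at h2
    exact lt_of_le_of_ne h1 (fun h => h2 h.symm)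
  · rw [hcardP, hScard]
    have h0 : (2 : ℝ) ^ j + 1 ≠ 0 := by positivity
    have h1 : (4 * 16 ^ j : ℝ) / (2 ^ j + 1) * (2 ^ (j + 1) + 2) = 8 * 16 ^ j := by
      rw [pow_succ]
      field_simp
      ring
    rw [h1]
    push_cast
    have h2 : (2 : ℝ) ^ (4 * j + 3) = 8 * 16 ^ j := by
      rw [pow_add, pow_mul]; norm_num; ring
    rw [h2]

end Pool.Agent.Results.MP_ac2800_co.ThreeHalves
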